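import Pool.Agent.H34.Simp3.Fun

/-!
# The Jacobian of the shape functions is nonzero almost everywhere
-/

open MeasureTheory Polynomial

namespace Pool.Agent.H67.Simp3

open Pool.Agent.H34.Simp3

/-- The zeros of a nonzero polynomial in `exp (-(s * I))` form a countable set. -/
theorem countable_poly (P : Polynomial ℂ) (hP : P ≠ 0) :
    {s : ℝ | P.eval (Complex.exp (-(s * Complex.I))) = 0}.Countable := by
  have h1 : {s : ℝ | P.eval (Complex.exp (-(s * Complex.I))) = 0} ⊆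
      ⋃ r ∈ (P.roots.toFinset : Set ℂ), {s : ℝ | Complex.exp (-(s * Complex.I)) = r} := by
    intro s hs
    simp only [Set.mem_iUnion]
    refine ⟨Complex.exp (-(s * Complex.I)), ?_, rfl⟩
    simp only [Finset.mem_coe, Multiset.mem_toFinset]
    rw [Polynomial.mem_roots hP]
    exact hs
  refine Set.Countable.mono h1 ?_
  refine Set.Countable.biUnion (Finset.countable_toSet _) ?_
  intro r _
  by_cases hne : ({s : ℝ | Complex.exp (-(s * Complex.I)) = r}).Nonempty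
  · obtain ⟨s0, hs0⟩ := hne
    refine Set.Countable.mono ?_ (Set.countable_range (fun n : ℤ => s0 - 2 * Real.pi * n))
    intro s hs
    have h2 : Complex.exp (-(s * Complex.I)) = Complex.exp (-(s0 * Complex.I)) := by
      rw [hs, hs0]
    rw [Complex.exp_eq_exp_iff_exists_int] at h2
    obtain ⟨n, hn⟩ := h2
    refine ⟨n, ?_⟩
    have h3 := congrArg Complex.im hn
    simp at h3
    show s0 - 2 * Real.pi * n = s
    linarith
  · rw [Set.not_nonempty_iff_eq_empty.1 hne]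
    exact Set.countable_empty

/-- The matrix with entries `A + B cos s + C sin s`. -/
noncomputable def tmat {n : ℕ} (A B C : Fin n → Fin n → ℝ) (s : ℝ) :
    Matrix (Fin n) (Fin n) ℝ := fun i j => A i j + B i j * Real.cos s + C i j * Real.sin s

/-- The leading coefficients. -/
noncomputable def lead {n : ℕ} (B C : Fin n → Fin n → ℝ) : Matrix (Fin n) (Fin n) ℂ :=
  fun i j => ((B i j : ℂ) - C i j * Complex.I) / 2

theorem countable_det {n : ℕ} (A B C : Fin n → Fin n → ℝ) (h : (lead B C).det ≠ 0) :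
    {s : ℝ | (tmat A B C s).det = 0}.Countable := by
  set M : Matrix (Fin n) (Fin n) (Polynomial ℂ) := fun i j =>
    Polynomial.C (((B i j : ℂ) - C i j * Complex.I) / 2) + Polynomial.C (A i j : ℂ) * X +
      Polynomial.C (((B i j : ℂ) + C i j * Complex.I) / 2) * X ^ 2 with hM
  have ev : ∀ v : ℂ, M.det.eval v = (M.map (fun P => P.eval v)).det := by
    intro v
    have := RingHom.map_det (Polynomial.evalRingHom v) M
    simpa using this
  have hP : M.det ≠ 0 := by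
    intro h0
    apply h
    have h1 := ev 0
    rw [h0, Polynomial.eval_zero] at h1
    rw [h1]
    congr 1
    ext i j
    simp [hM, lead]
  refine Set.Countable.mono ?_ (countable_poly _ hP)
  intro s hs
  show M.det.eval _ = 0
  rw [ev]
  have h1 : (M.map (fun P => P.eval (Complex.exp (-(s * Complex.I))))) =
      Complex.exp (-(s * Complex.I)) • ((tmat A B C s).map (fun x : ℝ => (x : ℂ))) := by
    ext i j
    have e1 : (Complex.cos s : ℂ) = (Complex.exp (s * Complex.I) +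
        Complex.exp (-(s * Complex.I))) / 2 := by
      rw [Complex.cos]
      ring_nf
    have e2 : (Complex.sin s : ℂ) = (Complex.exp (-(s * Complex.I)) -
        Complex.exp (s * Complex.I)) * Complex.I / 2 := by
      rw [Complex.sin]
      ring_nf
    have e3 : Complex.exp (-(s * Complex.I)) * Complex.exp (s * Complex.I) = 1 := by
      rw [← Complex.exp_add]
      simp
    simp only [hM, Matrix.map_apply, Matrix.smul_apply, tmat, smul_eq_mul, Polynomial.eval_add,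
      Polynomial.eval_mul, Polynomial.eval_C, Polynomial.eval_X, Polynomial.eval_pow]
    push_cast
    rw [e1, e2]
    set v := Complex.exp (-(s * Complex.I))
    set w := Complex.exp (s * Complex.I)
    linear_combination (-(B i j : ℂ) / 2 + (C i j : ℂ) * Complex.I / 2) * e3
  rw [h1, Matrix.det_smul]
  have h2 : ((tmat A B C s).map (fun x : ℝ => (x : ℂ))).det = (((tmat A B C s).det : ℝ) : ℂ) := by
    have := RingHom.map_det Complex.ofRealHom (tmat A B C s)
    rw [← Complex.ofRealHom_eq_coe, this]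
    rfl
  rw [h2, show (tmat A B C s).det = 0 from hs]
  simp

/-- The zeros of `A + B cos s + C sin s`. -/
theorem countable_one (A B C : ℝ) (hB : B ≠ 0) :
    {s : ℝ | A + B * Real.cos s + C * Real.sin s = 0}.Countable := by
  have := countable_det (n := 1) (fun _ _ => A) (fun _ _ => B) (fun _ _ => C) (by
    simp only [lead, Matrix.det_unique]
    intro h
    have := congrArg Complex.re h
    simp at this
    exact hB this)
  simpa [tmat] using this


/-! ### The derivatives -/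

noncomputable def c1' (δ _a b p t : ℝ) : ℝ := δ * Real.sin t + p * b * Real.cos t

noncomputable def c2' (δ a b p t : ℝ) : ℝ := p * a * b * Real.sin t - δ * a * Real.cos t

noncomputable def c3' (δ _a b p t : ℝ) : ℝ := - p * b ^ 2 * Real.sin t + δ * b * Real.cos t

variable (δ a b : ℝ)

theorem hc1 (p t : ℝ) : HasDerivAt (fun t => c1 δ a b p t) (c1' δ a b p t) t := by
  unfold c1 c1'
  have h := (((Real.hasDerivAt_cos t).const_sub 1).const_mul δ).add
    ((Real.hasDerivAt_sin t).const_mul (p * b))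
  refine h.congr_deriv ?_
  ring

theorem hc2 (p t : ℝ) : HasDerivAt (fun t => c2 δ a b p t) (c2' δ a b p t) t := by
  unfold c2 c2'
  have h := (((Real.hasDerivAt_cos t).const_sub 1).const_mul (p * a * b)).sub
    ((Real.hasDerivAt_sin t).const_mul (δ * a))
  refine h.congr_deriv ?_
  ring

theorem hc3 (p t : ℝ) : HasDerivAt (fun t => c3 δ a b p t) (c3' δ a b p t) t := by
  unfold c3 c3'
  have h := ((((Real.hasDerivAt_cos t).const_mul (b ^ 2)).const_add (a ^ 2)).const_mul p).add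
    ((Real.hasDerivAt_sin t).const_mul (δ * b))
  refine h.congr_deriv ?_
  ring

/-- Coefficients of the derivatives of `dsq u v`: constant term. -/
noncomputable def cA (u v t1 t2 : ℝ) : Fin 3 → ℝ :=
  ![0,
    2 * (c1 δ a b v t1 * c1' δ a b v t1 + c2 δ a b v t1 * c2' δ a b v t1) -
      2 * (c3 δ a b u t2 - c3 δ a b v t1) * c3' δ a b v t1,
    2 * (c1 δ a b u t2 * c1' δ a b u t2 + c2 δ a b u t2 * c2' δ a b u t2) +
      2 * (c3 δ a b u t2 - c3 δ a b v t1) * c3' δ a b u t2]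

/-- Coefficients of the derivatives of `dsq u v`: cosine term. -/
noncomputable def cB (u v t1 t2 : ℝ) : Fin 3 → ℝ :=
  ![-2 * (c2 δ a b u t2 * c1 δ a b v t1 - c1 δ a b u t2 * c2 δ a b v t1),
    -2 * (c1 δ a b u t2 * c1' δ a b v t1 + c2 δ a b u t2 * c2' δ a b v t1),
    -2 * (c1' δ a b u t2 * c1 δ a b v t1 + c2' δ a b u t2 * c2 δ a b v t1)]

/-- Coefficients of the derivatives of `dsq u v`: sine term. -/
noncomputable def cC (u v t1 t2 : ℝ) : Fin 3 → ℝ :=
  ![2 * (c1 δ a b u t2 * c1 δ a b v t1 + c2 δ a b u t2 * c2 δ a b v t1),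
    -2 * (c2 δ a b u t2 * c1' δ a b v t1 - c1 δ a b u t2 * c2' δ a b v t1),
    -2 * (c2' δ a b u t2 * c1 δ a b v t1 - c1' δ a b u t2 * c2 δ a b v t1)]

theorem hds (u v s t1 t2 : ℝ) : HasDerivAt (fun s => dsq δ a b u v s t1 t2)
    (cA δ a b u v t1 t2 0 + cB δ a b u v t1 t2 0 * Real.cos s +
      cC δ a b u v t1 t2 0 * Real.sin s) s := by
  unfold dsq
  have hc := Real.hasDerivAt_cos s
  have hs := Real.hasDerivAt_sin s
  have h := (((((hc.mul_const (c1 δ a b v t1)).sub (hs.mul_const (c2 δ a b v t1))).const_sub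
    (c1 δ a b u t2)).pow 2).add ((((hs.mul_const (c1 δ a b v t1)).add
      (hc.mul_const (c2 δ a b v t1))).const_sub (c2 δ a b u t2)).pow 2)).add_const
      ((c3 δ a b u t2 - c3 δ a b v t1) ^ 2)
  refine h.congr_deriv ?_
  simp [cA, cB, cC]
  ring

theorem hdt1 (u v s t1 t2 : ℝ) : HasDerivAt (fun t => dsq δ a b u v s t t2)
    (cA δ a b u v t1 t2 1 + cB δ a b u v t1 t2 1 * Real.cos s +
      cC δ a b u v t1 t2 1 * Real.sin s) t1 := by
  unfold dsq
  have h1 := hc1 δ a b v t1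
  have h2 := hc2 δ a b v t1
  have h3 := hc3 δ a b v t1
  have h := (((((h1.const_mul (Real.cos s)).sub (h2.const_mul (Real.sin s))).const_sub
    (c1 δ a b u t2)).pow 2).add ((((h1.const_mul (Real.sin s)).add
      (h2.const_mul (Real.cos s))).const_sub (c2 δ a b u t2)).pow 2)).add
      ((h3.const_sub (c3 δ a b u t2)).pow 2)
  refine h.congr_deriv ?_
  simp [cA, cB, cC]
  linear_combination (2 * (c1 δ a b v t1 * c1' δ a b v t1 + c2 δ a b v t1 * c2' δ a b v t1)) *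
    (Real.sin_sq_add_cos_sq s)

theorem hdt2 (u v s t1 t2 : ℝ) : HasDerivAt (fun t => dsq δ a b u v s t1 t)
    (cA δ a b u v t1 t2 2 + cB δ a b u v t1 t2 2 * Real.cos s +
      cC δ a b u v t1 t2 2 * Real.sin s) t2 := by
  unfold dsq
  have h1 := hc1 δ a b u t2
  have h2 := hc2 δ a b u t2
  have h3 := hc3 δ a b u t2
  have h := (((h1.sub_const (Real.cos s * c1 δ a b v t1 - Real.sin s * c2 δ a b v t1)).pow 2).add
    ((h2.sub_const (Real.sin s * c1 δ a b v t1 + Real.cos s * c2 δ a b v t1)).pow 2)).add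
      ((h3.sub_const (c3 δ a b v t1)).pow 2)
  refine h.congr_deriv ?_
  simp [cA, cB, cC]
  ring

/-- The three rows. -/
noncomputable def rowu (p q : ℝ) : Fin 3 → ℝ := ![p, q, p]

noncomputable def rowv (p q : ℝ) : Fin 3 → ℝ := ![p, p, q]

/-- The Jacobian matrix. -/
noncomputable def Jm (p q : ℝ) (t1 t2 s : ℝ) : Matrix (Fin 3) (Fin 3) ℝ :=
  tmat (fun i => cA δ a b (rowu p q i) (rowv p q i) t1 t2)
    (fun i => cB δ a b (rowu p q i) (rowv p q i) t1 t2)
    (fun i => cC δ a b (rowu p q i) (rowv p q i) t1 t2) s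

/-- The Wronskian. -/
theorem wronsk (hab : a ^ 2 + b ^ 2 = 1) (p q t : ℝ) :
    ((c1 δ a b p t : ℂ) + c2 δ a b p t * Complex.I) *
      ((c1' δ a b q t : ℂ) + c2' δ a b q t * Complex.I) -
    ((c1' δ a b p t : ℂ) + c2' δ a b p t * Complex.I) *
      ((c1 δ a b q t : ℂ) + c2 δ a b q t * Complex.I) =
      ((δ * b ^ 3 * (q - p) * (Real.cos t - 1) : ℝ) : ℂ) := by
  have hI : Complex.I ^ 2 = -1 := Complex.I_sq
  have hab' : (a : ℂ) ^ 2 + (b : ℂ) ^ 2 = 1 := by exact_mod_cast hab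
  have hsc : (Complex.sin t) ^ 2 + (Complex.cos t) ^ 2 = 1 := Complex.sin_sq_add_cos_sq _
  unfold c1 c2 c1' c2'
  push_cast
  linear_combination (δ * b * (q - p) * a ^ 2 * (Complex.cos t - Complex.cos t ^ 2 -
    Complex.sin t ^ 2)) * hI - (δ * b * (q - p) * (Complex.cos t - Complex.cos t ^ 2 -
    Complex.sin t ^ 2)) * hab' - (δ * b ^ 3 * (q - p)) * hsc

/-- The leading determinant. -/
theorem lead_det (hab : a ^ 2 + b ^ 2 = 1) (p q t1 t2 : ℝ) :
    (lead (fun i => cB δ a b (rowu p q i) (rowv p q i) t1 t2)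
      (fun i => cC δ a b (rowu p q i) (rowv p q i) t1 t2)).det =
    Complex.I * ((c1 δ a b p t2 : ℂ) - c2 δ a b p t2 * Complex.I) *
      ((c1 δ a b p t1 : ℂ) + c2 δ a b p t1 * Complex.I) *
      ((δ * b ^ 3 * (q - p) * (Real.cos t1 - 1) : ℝ) : ℂ) *
      ((δ * b ^ 3 * (q - p) * (Real.cos t2 - 1) : ℝ) : ℂ) := by
  have hI : Complex.I ^ 2 = -1 := Complex.I_sq
  have w1 := wronsk δ a b hab p q t1
  have w2 := congrArg (starRingEnd ℂ) (wronsk δ a b hab p q t2)
  simp only [map_sub, map_mul, map_add, Complex.conj_ofReal, Complex.conj_I] at w2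
  rw [← w1, ← w2]
  have e0 : ∀ i, lead (fun i => cB δ a b (rowu p q i) (rowv p q i) t1 t2)
      (fun i => cC δ a b (rowu p q i) (rowv p q i) t1 t2) i 0 =
      - Complex.I * ((c1 δ a b (rowu p q i) t2 : ℂ) - c2 δ a b (rowu p q i) t2 * Complex.I) *
        ((c1 δ a b (rowv p q i) t1 : ℂ) + c2 δ a b (rowv p q i) t1 * Complex.I) := by
    intro i
    simp only [lead, cB, cC, Matrix.cons_val_zero]
    push_cast
    linear_combination ((c1 δ a b (rowu p q i) t2 : ℂ) * c2 δ a b (rowv p q i) t1 -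
      c2 δ a b (rowu p q i) t2 * c1 δ a b (rowv p q i) t1 -
      Complex.I * c2 δ a b (rowu p q i) t2 * c2 δ a b (rowv p q i) t1) * hI
  have e1 : ∀ i, lead (fun i => cB δ a b (rowu p q i) (rowv p q i) t1 t2)
      (fun i => cC δ a b (rowu p q i) (rowv p q i) t1 t2) i 1 =
      - ((c1 δ a b (rowu p q i) t2 : ℂ) - c2 δ a b (rowu p q i) t2 * Complex.I) *
        ((c1' δ a b (rowv p q i) t1 : ℂ) + c2' δ a b (rowv p q i) t1 * Complex.I) := by
    intro i
    simp only [lead, cB, cC, Matrix.cons_val_one, Matrix.cons_val_zero]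
    push_cast
    linear_combination (-(c2 δ a b (rowu p q i) t2 : ℂ) * c2' δ a b (rowv p q i) t1) * hI
  have e2 : ∀ i, lead (fun i => cB δ a b (rowu p q i) (rowv p q i) t1 t2)
      (fun i => cC δ a b (rowu p q i) (rowv p q i) t1 t2) i 2 =
      - ((c1' δ a b (rowu p q i) t2 : ℂ) - c2' δ a b (rowu p q i) t2 * Complex.I) *
        ((c1 δ a b (rowv p q i) t1 : ℂ) + c2 δ a b (rowv p q i) t1 * Complex.I) := by
    intro i
    simp only [lead, cB, cC, Matrix.cons_val_two, Matrix.tail_cons, Matrix.head_cons]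
    push_cast
    linear_combination (-(c2' δ a b (rowu p q i) t2 : ℂ) * c2 δ a b (rowv p q i) t1) * hI
  rw [Matrix.det_fin_three]
  simp only [e0, e1, e2]
  have u0 : rowu p q 0 = p := rfl
  have u1 : rowu p q 1 = q := rfl
  have u2 : rowu p q 2 = p := rfl
  have v0 : rowv p q 0 = p := rfl
  have v1 : rowv p q 1 = p := rfl
  have v2 : rowv p q 2 = q := rfl
  rw [u0, u1, u2, v0, v1, v2]
  ring

/-- The zero set of the Jacobian in `s` is countable for good `t1`, `t2`. -/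
theorem countable_jac (hab : a ^ 2 + b ^ 2 = 1) (hb : b ≠ 0) (hδ : δ ≠ 0) {p q : ℝ}
    (hpq : p ≠ q) {t1 t2 : ℝ} (h1 : c1 δ a b p t1 ≠ 0) (h1' : Real.cos t1 ≠ 1)
    (h2 : c1 δ a b p t2 ≠ 0) (h2' : Real.cos t2 ≠ 1) :
    {s : ℝ | (Jm δ a b p q t1 t2 s).det = 0}.Countable := by
  apply countable_det
  rw [lead_det δ a b hab]
  have k : ∀ x y : ℝ, x ≠ 0 → ((x : ℂ) + y * Complex.I) ≠ 0 := by
    intro x y hx h
    have := congrArg Complex.re h
    simp at this
    exact hx this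
  have k' : ∀ x y : ℝ, x ≠ 0 → ((x : ℂ) - y * Complex.I) ≠ 0 := by
    intro x y hx h
    have := congrArg Complex.re h
    simp at this
    exact hx this
  have kw : ∀ t : ℝ, Real.cos t ≠ 1 → ((δ * b ^ 3 * (q - p) * (Real.cos t - 1) : ℝ) : ℂ) ≠ 0 := by
    intro t ht
    have : δ * b ^ 3 * (q - p) * (Real.cos t - 1) ≠ 0 :=
      mul_ne_zero (mul_ne_zero (mul_ne_zero hδ (pow_ne_zero _ hb)) (sub_ne_zero.2 hpq.symm))
        (sub_ne_zero.2 ht)
    exact_mod_cast this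
  exact mul_ne_zero (mul_ne_zero (mul_ne_zero (mul_ne_zero Complex.I_ne_zero (k' _ _ h2))
    (k _ _ h1)) (kw _ h1')) (kw _ h2')

theorem countable_c1 (hδ : δ ≠ 0) (p : ℝ) : {t : ℝ | c1 δ a b p t = 0}.Countable := by
  have := countable_one δ (-δ) (p * b) (neg_ne_zero.2 hδ)
  refine this.mono ?_
  intro t ht
  have h : c1 δ a b p t = 0 := ht
  show δ + -δ * Real.cos t + p * b * Real.sin t = 0
  rw [← h]
  unfold c1
  ring

theorem countable_cos : {t : ℝ | Real.cos t = 1}.Countable := by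
  have := countable_one (-1) 1 0 one_ne_zero
  refine this.mono ?_
  intro t ht
  have h : Real.cos t = 1 := ht
  show -1 + 1 * Real.cos t + 0 * Real.sin t = 0
  rw [h]
  ring

theorem Jm_cont (p q : ℝ) : Continuous (fun τ : (ℝ × ℝ) × ℝ =>
    (Jm δ a b p q τ.1.2 τ.2 τ.1.1).det) := by
  apply Continuous.matrix_det
  refine continuous_matrix fun i j => ?_
  fin_cases j <;> simp only [Jm, tmat, cA, cB, cC, c1, c2, c3, c1', c2', c3', Fin.zero_eta,
    Fin.mk_one, Fin.reduceFinMk, Matrix.cons_val_zero, Matrix.cons_val_one, Matrix.cons_val_two,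
    Matrix.tail_cons, Matrix.head_cons] <;> fun_prop

theorem ae_det (hab : a ^ 2 + b ^ 2 = 1) (hb : b ≠ 0) (hδ : δ ≠ 0) {p q : ℝ}
    (hpq : p ≠ q) : ∀ᵐ τ : (ℝ × ℝ) × ℝ, (Jm δ a b p q τ.1.2 τ.2 τ.1.1).det ≠ 0 := by
  set N : Set ((ℝ × ℝ) × ℝ) := {τ | (Jm δ a b p q τ.1.2 τ.2 τ.1.1).det = 0} with hN
  have hNm : MeasurableSet N :=
    (isClosed_singleton.preimage (Jm_cont δ a b p q)).measurableSet
  rw [ae_iff]
  have e : {τ : (ℝ × ℝ) × ℝ | ¬ (Jm δ a b p q τ.1.2 τ.2 τ.1.1).det ≠ 0} = N := by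
    ext τ
    simp [hN]
  rw [e]
  have hc : (({t : ℝ | c1 δ a b p t = 0} ∪ {t : ℝ | Real.cos t = 1}) : Set ℝ).Countable :=
    (countable_c1 δ a b hδ p).union countable_cos
  have hae : ∀ᵐ t : ℝ, c1 δ a b p t ≠ 0 ∧ Real.cos t ≠ 1 := by
    have := hc.ae_notMem volume
    filter_upwards [this] with t ht
    simp only [Set.mem_union, Set.mem_ofPred_eq, not_or] at ht
    exact ht
  show (volume.prod volume) N = 0
  rw [Measure.prod_apply_symm hNm, lintegral_eq_zero_iff]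
  · filter_upwards [hae] with t2 ht2
    have hm2 : MeasurableSet ((fun x : ℝ × ℝ => (x, t2)) ⁻¹' N) :=
      hNm.preimage (measurable_id.prodMk measurable_const)
    show (volume.prod volume) ((fun x : ℝ × ℝ => (x, t2)) ⁻¹' N) = 0
    rw [Measure.prod_apply_symm hm2, lintegral_eq_zero_iff]
    · filter_upwards [hae] with t1 ht1
      exact (countable_jac δ a b hab hb hδ hpq ht1.1 ht1.2 ht2.1 ht2.2).measure_zero _
    · exact measurable_measure_prodMk_right hm2
  · exact measurable_measure_prodMk_right hNm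


/-! ### The derivative of `Phi` -/

theorem contDiff_dsq (u v : ℝ) : ContDiff ℝ ⊤ (fun τ : (ℝ × ℝ) × ℝ =>
    dsq δ a b u v τ.1.1 τ.1.2 τ.2) := by
  unfold dsq c1 c2 c3
  fun_prop

theorem contDiff_Phi (p q : ℝ) : ContDiff ℝ ⊤ (Phi δ a b p q) :=
  ((contDiff_dsq δ a b p p).prodMk (contDiff_dsq δ a b q p)).prodMk (contDiff_dsq δ a b p q)

theorem continuous_Phi (p q : ℝ) : Continuous (Phi δ a b p q) :=
  (contDiff_Phi δ a b p q).continuous

/-- The derivative of `dsq`. -/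
theorem fderiv_dsq (u v : ℝ) (τ w : (ℝ × ℝ) × ℝ) :
    fderiv ℝ (fun τ : (ℝ × ℝ) × ℝ => dsq δ a b u v τ.1.1 τ.1.2 τ.2) τ w =
      (cA δ a b u v τ.1.2 τ.2 0 + cB δ a b u v τ.1.2 τ.2 0 * Real.cos τ.1.1 +
        cC δ a b u v τ.1.2 τ.2 0 * Real.sin τ.1.1) * w.1.1 +
      (cA δ a b u v τ.1.2 τ.2 1 + cB δ a b u v τ.1.2 τ.2 1 * Real.cos τ.1.1 +
        cC δ a b u v τ.1.2 τ.2 1 * Real.sin τ.1.1) * w.1.2 +
      (cA δ a b u v τ.1.2 τ.2 2 + cB δ a b u v τ.1.2 τ.2 2 * Real.cos τ.1.1 +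
        cC δ a b u v τ.1.2 τ.2 2 * Real.sin τ.1.1) * w.2 := by
  set F : (ℝ × ℝ) × ℝ → ℝ := fun τ => dsq δ a b u v τ.1.1 τ.1.2 τ.2 with hF
  have hd : HasFDerivAt F (fderiv ℝ F τ) τ :=
    ((contDiff_dsq δ a b u v).differentiable (by simp) τ).hasFDerivAt
  obtain ⟨⟨s, t1⟩, t2⟩ := τ
  have l0 : HasDerivAt (fun s : ℝ => ((s, t1), t2)) (((1 : ℝ), (0 : ℝ)), (0 : ℝ)) s :=
    ((hasDerivAt_id s).prodMk (hasDerivAt_const s t1)).prodMk (hasDerivAt_const s t2)
  have l1 : HasDerivAt (fun t1 : ℝ => ((s, t1), t2)) (((0 : ℝ), (1 : ℝ)), (0 : ℝ)) t1 :=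
    ((hasDerivAt_const t1 s).prodMk (hasDerivAt_id t1)).prodMk (hasDerivAt_const t1 t2)
  have l2 : HasDerivAt (fun t2 : ℝ => ((s, t1), t2)) (((0 : ℝ), (0 : ℝ)), (1 : ℝ)) t2 :=
    ((hasDerivAt_const t2 s).prodMk (hasDerivAt_const t2 t1)).prodMk (hasDerivAt_id t2)
  have k0 : HasDerivAt (fun s => dsq δ a b u v s t1 t2)
      (fderiv ℝ F ((s, t1), t2) (((1 : ℝ), (0 : ℝ)), (0 : ℝ))) s := by
    have h : HasFDerivAt F (fderiv ℝ F ((s, t1), t2)) ((fun s : ℝ => ((s, t1), t2)) s) := hd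
    exact h.comp_hasDerivAt s l0
  have k1 : HasDerivAt (fun t => dsq δ a b u v s t t2)
      (fderiv ℝ F ((s, t1), t2) (((0 : ℝ), (1 : ℝ)), (0 : ℝ))) t1 := by
    have h : HasFDerivAt F (fderiv ℝ F ((s, t1), t2)) ((fun t1 : ℝ => ((s, t1), t2)) t1) := hd
    exact h.comp_hasDerivAt t1 l1
  have k2 : HasDerivAt (fun t => dsq δ a b u v s t1 t)
      (fderiv ℝ F ((s, t1), t2) (((0 : ℝ), (0 : ℝ)), (1 : ℝ))) t2 := by
    have h : HasFDerivAt F (fderiv ℝ F ((s, t1), t2)) ((fun t2 : ℝ => ((s, t1), t2)) t2) := hd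
    exact h.comp_hasDerivAt t2 l2
  have d0 := k0.unique (hds δ a b u v s t1 t2)
  have d1 := k1.unique (hdt1 δ a b u v s t1 t2)
  have d2 := k2.unique (hdt2 δ a b u v s t1 t2)
  obtain ⟨⟨x, y⟩, z⟩ := w
  have e : (((x, y), z) : (ℝ × ℝ) × ℝ) = x • (((1 : ℝ), (0 : ℝ)), (0 : ℝ)) +
      y • (((0 : ℝ), (1 : ℝ)), (0 : ℝ)) + z • (((0 : ℝ), (0 : ℝ)), (1 : ℝ)) := by
    simp
  rw [e, map_add, map_add, map_smul, map_smul, map_smul, d0, d1, d2]
  simp only [smul_eq_mul, ← e]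
  ring

/-- At almost every point `Phi` has an invertible strict derivative. -/
theorem jac_ae {δ a b p q : ℝ} (hab : a ^ 2 + b ^ 2 = 1) (hb : b ≠ 0) (hδ : δ ≠ 0)
    (hpq : p ≠ q) : ∀ᵐ τ : (ℝ × ℝ) × ℝ, ∃ L : ((ℝ × ℝ) × ℝ) ≃L[ℝ] ((ℝ × ℝ) × ℝ),
      HasStrictFDerivAt (Phi δ a b p q) (L : ((ℝ × ℝ) × ℝ) →L[ℝ] ((ℝ × ℝ) × ℝ)) τ := by
  filter_upwards [ae_det δ a b hab hb hδ hpq] with τ hτ
  have hs : HasStrictFDerivAt (Phi δ a b p q) (fderiv ℝ (Phi δ a b p q) τ) τ :=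
    (contDiff_Phi δ a b p q).contDiffAt.hasStrictFDerivAt (by simp)
  have hdiff : ∀ u v, DifferentiableAt ℝ (fun τ : (ℝ × ℝ) × ℝ =>
      dsq δ a b u v τ.1.1 τ.1.2 τ.2) τ := fun u v =>
    (contDiff_dsq δ a b u v).differentiable (by simp) τ
  have hf : fderiv ℝ (Phi δ a b p q) τ =
      ((fderiv ℝ (fun τ : (ℝ × ℝ) × ℝ => dsq δ a b p p τ.1.1 τ.1.2 τ.2) τ).prod
        (fderiv ℝ (fun τ : (ℝ × ℝ) × ℝ => dsq δ a b q p τ.1.1 τ.1.2 τ.2) τ)).prod
        (fderiv ℝ (fun τ : (ℝ × ℝ) × ℝ => dsq δ a b p q τ.1.1 τ.1.2 τ.2) τ) := by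
    exact (((hdiff p p).hasFDerivAt.prodMk (hdiff q p).hasFDerivAt).prodMk
      (hdiff p q).hasFDerivAt).fderiv
  have hinj : Function.Injective (fderiv ℝ (Phi δ a b p q) τ).toLinearMap := by
    rw [← LinearMap.ker_eq_bot, LinearMap.ker_eq_bot']
    intro w hw
    have hw' : fderiv ℝ (Phi δ a b p q) τ w = 0 := hw
    rw [hf] at hw'
    simp only [ContinuousLinearMap.prod_apply, Prod.mk_eq_zero] at hw'
    obtain ⟨⟨h1, h2⟩, h3⟩ := hw'
    rw [fderiv_dsq] at h1 h2 h3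
    have hv := Matrix.eq_zero_of_mulVec_eq_zero hτ (v := ![w.1.1, w.1.2, w.2]) (by
      ext i
      fin_cases i
      · simpa [Matrix.mulVec, dotProduct, Fin.sum_univ_three, Jm, tmat, rowu, rowv] using h1
      · simpa [Matrix.mulVec, dotProduct, Fin.sum_univ_three, Jm, tmat, rowu, rowv] using h2
      · simpa [Matrix.mulVec, dotProduct, Fin.sum_univ_three, Jm, tmat, rowu, rowv] using h3)
    have a0 := congrFun hv 0
    have a1 := congrFun hv 1
    have a2 := congrFun hv 2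
    simp at a0 a1 a2
    ext <;> simp [a0, a1, a2]
  refine ⟨(LinearEquiv.ofInjectiveEndo _ hinj).toContinuousLinearEquiv, ?_⟩
  have : (((LinearEquiv.ofInjectiveEndo _ hinj).toContinuousLinearEquiv :
      ((ℝ × ℝ) × ℝ) ≃L[ℝ] ((ℝ × ℝ) × ℝ)) : ((ℝ × ℝ) × ℝ) →L[ℝ] ((ℝ × ℝ) × ℝ)) =
      fderiv ℝ (Phi δ a b p q) τ := by
    apply ContinuousLinearMap.ext
    intro w
    rfl
  rw [this]
  exact hs

end Pool.Agent.H67.Simp3
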